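import Pool.Agent.HamChrom.D5.Fam

set_option autoImplicit false

namespace Pool.Agent.HamChrom.D5

open Pool.Agent.HamChrom

def certA0 : Cert := ⟨[1], 2 ^ 67, [
  ((.nu 0), [⟨0, 1, [112212275200, 442864201728, 661492191232, 439312809984, 109454557184]⟩, ⟨0, 19, [41400692736, 180524773376, 299386195968, 218872774656, 59592671232]⟩]),
  ((.nu 1), [⟨0, 1, [0, 22914224128, 74169163776, 75667562496, 25394642944]⟩, ⟨2, 0, [36967313408, 155279257600, 250249924608, 178603261952, 47647293440]⟩, ⟨2, 1, [137178128384, 548729507840, 805303992320, 524916203520, 128217546752]⟩]),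
  ((.nu 16), [⟨1, 8, [142594445312, 593092448256, 917791846400, 630612197376, 162336342016]⟩, ⟨1, 64, [261351903232, 1039264858112, 1537930924032, 1011331047424, 249349046272]⟩, ⟨1, 72, [2973556736, 109981696, 164970496, 109993984, 27492352]⟩, ⟨1, 73, [247866327040, 1059795238912, 1692879552512, 1197838696448, 316888055808]⟩]),
  ((.nu 2), [⟨3, 0, [111776141312, 445325807616, 659147337728, 433349885952, 106770202624]⟩]),
  ((.nu 3), [⟨0, 0, [191376850944, 771272081408, 1165512343552, 782715846656, 197098733568]⟩]),
  ((.nu 4), [⟨0, 0, [143357005824, 513107812352, 672870473728, 383773667328, 92476018688]⟩, ⟨0, 17, [183352508416, 739651051520, 1113021280256, 744427466752, 173918679040]⟩, ⟨0, 18, [187720380416, 813386964992, 1320149540864, 947091574784, 240786599936]⟩, ⟨0, 19, [27496448, 109961216, 164941824, 109961216, 27492352]⟩]),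
  ((.nu 5), [⟨0, 2, [45781241856, 127849455616, 102605037568, 8714809344, 4096]⟩, ⟨0, 3, [107687473152, 503133859840, 869492772864, 656405790720, 183341416448]⟩]),
  ((.nu 6), [⟨0, 1, [192863485952, 781755002880, 1188044378112, 802277625856, 190320734208]⟩, ⟨0, 17, [27492352, 110010368, 164945920, 109961216, 25635594240]⟩]),
  ((.nu 7), [⟨0, 0, [90504278016, 427975516160, 747156758528, 568475947008, 146968408064]⟩])]⟩

theorem checkA0 : Checked par fams famA true certA0 :=
  ⟨by decide +kernel, by decide +kernel, by decide +kernel⟩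

end Pool.Agent.HamChrom.D5
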