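import Pool.Agent.HamChrom.D5.Fam

set_option autoImplicit false

namespace Pool.Agent.HamChrom.D5

open Pool.Agent.HamChrom

def certH0 : Cert := ⟨[1], 2 ^ 67, [
  ((.nu 0), [⟨0, 16, [43087409152, 176981729280, 272295153664, 185994764288, 47593926656]⟩, ⟨2, 0, [53108277248, 215159406592, 326828556288, 220612001792, 55834574848]⟩]),
  ((.nu 16), [⟨1, 1, [145462394880, 615232569344, 973258620928, 682669113344, 179180666880]⟩, ⟨1, 8, [170084728832, 651416174592, 933439668224, 592969728000, 140861505536]⟩, ⟨1, 64, [30744772608, 105198387200, 130913140736, 69210210304, 12750684160]⟩, ⟨1, 72, [207192391680, 879767977984, 1396663451648, 982792536064, 258704670720]⟩]),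
  ((.nu 2), [⟨0, 0, [24138895360, 87309754368, 117154361344, 68935032832, 14951534592]⟩, ⟨0, 1, [76676071424, 312303681536, 476854616064, 323502473216, 82275467264]⟩, ⟨3, 0, [144527327232, 583838728192, 884419330048, 595431784448, 150323855360]⟩]),
  ((.nu 4), [⟨0, 0, [235862052864, 939942420480, 1404750049280, 933121040384, 232451362816]⟩, ⟨0, 2, [129021661184, 530538635264, 817544409088, 559559548928, 143532118016]⟩, ⟨0, 3, [27484160, 109953024, 164929536, 109953024, 27484160]⟩, ⟨0, 19, [141870780416, 578605096960, 884793651200, 601255124992, 153195794432]⟩]),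
  ((.nu 6), [⟨0, 0, [11647344640, 60691562496, 112037044224, 88588795904, 25595961344]⟩, ⟨0, 1, [165326442496, 662501793792, 995574722560, 664949825536, 166550458368]⟩])]⟩

theorem checkH0 : Checked par fams famH true certH0 :=
  ⟨by decide +kernel, by decide +kernel, by decide +kernel⟩

end Pool.Agent.HamChrom.D5
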