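import Pool.Agent.HamChrom.D5.Fam

set_option autoImplicit false

namespace Pool.Agent.HamChrom.D5

open Pool.Agent.HamChrom

def certP0 : Cert := ⟨[1], 2 ^ 67, [
  ((.nu 0), [⟨0, 0, [288215793664, 1174153461760, 1793165623296, 1216734035968, 309506080768]⟩]),
  ((.nu 1), [⟨0, 2, [1151355092992, 4690585677824, 7163626442752, 4860916412416, 1236520423424]⟩, ⟨2, 0, [27492352, 110006272, 165097472, 109957120, 27504640]⟩]),
  ((.nu 16), [⟨1, 0, [7056556032, 26251923456, 36394905600, 22260076544, 5060669440]⟩, ⟨1, 8, [925685874688, 3764791767040, 5740810588160, 3889989562368, 988284735488]⟩]),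
  ((.nu 4), [⟨0, 0, [575152783360, 2343278870528, 3578970701824, 2428715925504, 617871310848]⟩, ⟨0, 2, [287753961472, 1172214775808, 1790069768192, 1214511054848, 308902100992]⟩]),
  ((.nu 5), [⟨0, 0, [287947358208, 1173079719936, 1791555010560, 1215660294144, 309237645312]⟩])]⟩

theorem checkP0 : Checked par fams famP true certP0 :=
  ⟨by decide +kernel, by decide +kernel, by decide +kernel⟩

end Pool.Agent.HamChrom.D5
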