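import Pool.Agent.HamChrom.D5.CS
import Pool.Agent.HamChrom.D5.CH
import Pool.Agent.HamChrom.D5.CA
import Pool.Agent.HamChrom.D5.CP
import Pool.Agent.HamChrom.D5.CS0
import Pool.Agent.HamChrom.D5.CH0
import Pool.Agent.HamChrom.D5.CA0
import Pool.Agent.HamChrom.D5.CP0

set_option autoImplicit false

namespace Pool.Agent.HamChrom.D5

open Pool.Agent.HamChrom

theorem cone {y ρ : ℝ} (hP : par.Rel y ρ) : ConeHyp y := by
  refine coneHyp_of_checked hP (fams := fams) (by simp [fams]) ?_ ?_
  · intro F hF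
    simp only [fams, List.mem_cons, List.not_mem_nil, or_false] at hF
    rcases hF with rfl | rfl | rfl | rfl
    · exact ⟨_, checkS⟩
    · exact ⟨_, checkH⟩
    · exact ⟨_, checkA⟩
    · exact ⟨_, checkP⟩
  · intro F hF
    simp only [fams, List.mem_cons, List.not_mem_nil, or_false] at hF
    rcases hF with rfl | rfl | rfl | rfl
    · exact ⟨_, checkS0⟩
    · exact ⟨_, checkH0⟩
    · exact ⟨_, checkA0⟩
    · exact ⟨_, checkP0⟩

end Pool.Agent.HamChrom.D5
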